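import Mathlib

set_option autoImplicit false

namespace Pool.Agent.Results.MP_3f639a_co.Lift

open Complex

/-- Combinatorial configuration `(n_4)`; `I i j` means that point `i` lies on line `j`. -/
def IsConfig {n : ℕ} (I : Fin n → Fin n → Prop) : Prop :=
  (∀ j, {i | I i j}.ncard = 4) ∧ (∀ i, {j | I i j}.ncard = 4) ∧
  ∀ i i' j j', i ≠ i' → I i j → I i' j → I i j' → I i' j' → j = j'

/-- Realization in the Euclidean plane `ℂ`: distinct points, distinct straight lines, exactly the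
incidences of `I`. -/
def Realizes {n : ℕ} (I : Fin n → Fin n → Prop) (p : Fin n → ℂ) (L : Fin n → Set ℂ) : Prop :=
  Function.Injective p ∧ Function.Injective L ∧
  (∀ j, ∃ a b c : ℝ, (a ≠ 0 ∨ b ≠ 0) ∧ L j = {z | a * z.re + b * z.im = c}) ∧
  ∀ i j, p i ∈ L j ↔ I i j

/-- Realization in `ℝ^d`: distinct points, distinct straight lines, exactly the incidences of `I`. -/
def RealizesIn {n : ℕ} (d : ℕ) (I : Fin n → Fin n → Prop) (q : Fin n → EuclideanSpace ℝ (Fin d))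
    (M : Fin n → Set (EuclideanSpace ℝ (Fin d))) : Prop :=
  Function.Injective q ∧ Function.Injective M ∧
  (∀ j, ∃ a v : EuclideanSpace ℝ (Fin d), v ≠ 0 ∧ M j = {z | ∃ t : ℝ, z = a + t • v}) ∧
  ∀ i j, q i ∈ M j ↔ I i j

/-- Connected: any two points are joined by a chain of points, consecutive ones on a common line. -/
def Conn {n : ℕ} (I : Fin n → Fin n → Prop) : Prop :=
  ∀ i k, Relation.ReflTransGen (fun x y => ∃ j, I x j ∧ I y j) i k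

/-- A symmetry: an isometry of the plane mapping the point set and the line set onto themselves. -/
def Sym {n : ℕ} (p : Fin n → ℂ) (L : Fin n → Set ℂ) (g : ℂ → ℂ) : Prop :=
  Isometry g ∧ g '' Set.range p = Set.range p ∧ (fun l => g '' l) '' Set.range L = Set.range L

/-- `k`-astral: the points form exactly `k` orbits and the lines form exactly `k` orbits under the
symmetry group; `a` and `b` label the orbits. -/
def KAstral {n : ℕ} (k : ℕ) (p : Fin n → ℂ) (L : Fin n → Set ℂ) : Prop :=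
  ∃ a b : Fin n → Fin k, Function.Surjective a ∧ Function.Surjective b ∧
    (∀ i i', a i = a i' ↔ ∃ g, Sym p L g ∧ g (p i) = p i') ∧
    ∀ j j', b j = b j' ↔ ∃ g, Sym p L g ∧ g '' L j = L j'

noncomputable def om (m : ℕ) : ℂ := Complex.exp (2 * Real.pi * Complex.I / m)

abbrev Z := ℤ√3
def PT : Fin 36 → Z × Z := ![(⟨2, 0⟩, ⟨0, 0⟩), (⟨0, 1⟩, ⟨1, 0⟩), (⟨1, 0⟩, ⟨0, 1⟩), (⟨0, 0⟩, ⟨2, 0⟩), (⟨-1, 0⟩, ⟨0, 1⟩), (⟨0, -1⟩, ⟨1, 0⟩), (⟨-2, 0⟩, ⟨0, 0⟩), (⟨0, -1⟩, ⟨-1, 0⟩), (⟨-1, 0⟩, ⟨0, -1⟩), (⟨0, 0⟩, ⟨-2, 0⟩), (⟨1, 0⟩, ⟨0, -1⟩), (⟨0, 1⟩, ⟨-1, 0⟩), (⟨2, -1⟩, ⟨-3, 2⟩), (⟨0, 0⟩, ⟨4, -2⟩), (⟨-2, 1⟩, ⟨-3, 2⟩), (⟨3, -2⟩, ⟨2, -1⟩), (⟨-4, 2⟩, ⟨0, 0⟩), (⟨3, -2⟩, ⟨-2, 1⟩), (⟨-2, 1⟩, ⟨3, -2⟩), (⟨0, 0⟩, ⟨-4, 2⟩), (⟨2, -1⟩, ⟨3, -2⟩), (⟨-3, 2⟩, ⟨-2, 1⟩), (⟨4, -2⟩, ⟨0, 0⟩), (⟨-3, 2⟩, ⟨2, -1⟩), (⟨3, -1⟩, ⟨-1, 1⟩), (⟨-1, 1⟩, ⟨3, -1⟩), (⟨0, 0⟩, ⟨-2, 2⟩), (⟨1, -1⟩, ⟨3, -1⟩), (⟨-3,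 1⟩, ⟨-1, 1⟩), (⟨2, -2⟩, ⟨0, 0⟩), (⟨-3, 1⟩, ⟨1, -1⟩), (⟨1, -1⟩, ⟨-3, 1⟩), (⟨0, 0⟩, ⟨2, -2⟩), (⟨-1, 1⟩, ⟨-3, 1⟩), (⟨3, -1⟩, ⟨1, -1⟩), (⟨-2, 2⟩, ⟨0, 0⟩)]
def NT : Fin 36 → Z × Z := ![(⟨-2, 1⟩, ⟨-1, 0⟩), (⟨2, -1⟩, ⟨-1, 0⟩), (⟨-1, 1⟩, ⟨1, -1⟩), (⟨1, 0⟩, ⟨-2, 1⟩), (⟨1, 0⟩, ⟨2, -1⟩), (⟨-1, 1⟩, ⟨-1, 1⟩), (⟨2, -1⟩, ⟨1, 0⟩), (⟨-2, 1⟩, ⟨1, 0⟩), (⟨1, -1⟩, ⟨-1, 1⟩), (⟨-1, 0⟩, ⟨2, -1⟩), (⟨-1, 0⟩, ⟨-2, 1⟩), (⟨1, -1⟩, ⟨1, -1⟩), (⟨2, -1⟩, ⟨-1, 0⟩), (⟨-1, 1⟩, ⟨1, -1⟩), (⟨1, 0⟩, ⟨-2, 1⟩), (⟨1, 0⟩, ⟨2, -1⟩), (⟨-1, 1⟩, ⟨-1, 1⟩), (⟨2, -1⟩, ⟨1, 0⟩), (⟨-2, 1⟩, ⟨1, 0⟩), (⟨1, -1⟩, ⟨-1, 1⟩), (⟨-1, 0⟩, ⟨2, -1⟩), (⟨-1, 0⟩, ⟨-2, 1⟩), (⟨1, -1⟩, ⟨1, -1⟩), (⟨-2, 1⟩, ⟨-1, 0⟩), (⟨1, -1⟩, ⟨1, -1⟩), (⟨-2, 1⟩, ⟨-1, 0⟩), (⟨2, -1⟩, ⟨-1, 0⟩), (⟨-1, 1⟩, ⟨1, -1⟩), (⟨1, 0⟩, ⟨-2, 1⟩), (⟨1, 0⟩, ⟨2, -1⟩), (⟨-1, 1⟩, ⟨-1, 1⟩), (⟨2, -1⟩, ⟨1, 0⟩), (⟨-2, 1⟩, ⟨1, 0⟩), (⟨1, -1⟩, ⟨-1, 1⟩), (⟨-1, 0⟩, ⟨2, -1⟩),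 (⟨-1, 0⟩, ⟨-2, 1⟩)]
def CT : Fin 36 → Z := ![⟨-4, 2⟩, ⟨-4, 2⟩, ⟨-4, 2⟩, ⟨-4, 2⟩, ⟨-4, 2⟩, ⟨-4, 2⟩, ⟨-4, 2⟩, ⟨-4, 2⟩, ⟨-4, 2⟩, ⟨-4, 2⟩, ⟨-4, 2⟩, ⟨-4, 2⟩, ⟨10, -6⟩, ⟨10, -6⟩, ⟨10, -6⟩, ⟨10, -6⟩, ⟨10, -6⟩, ⟨10, -6⟩, ⟨10, -6⟩, ⟨10, -6⟩, ⟨10, -6⟩, ⟨10, -6⟩, ⟨10, -6⟩, ⟨10, -6⟩, ⟨2, -2⟩, ⟨2, -2⟩, ⟨2, -2⟩, ⟨2, -2⟩, ⟨2, -2⟩, ⟨2, -2⟩, ⟨2, -2⟩, ⟨2, -2⟩, ⟨2, -2⟩, ⟨2, -2⟩, ⟨2, -2⟩, ⟨2, -2⟩]
def tp : Fin 36 → Fin 36 := ![0, 11, 10, 9, 8, 7, 6, 5, 4, 3, 2, 1, 20, 19, 18, 17, 16, 15, 14, 13, 12, 23, 22, 21, 34, 33, 32, 31, 30, 29, 28, 27, 26, 25, 24, 35]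
def tl : Fin 36 → Fin 36 := ![7, 6, 5, 4, 3, 2, 1, 0, 11, 10, 9, 8, 17, 16, 15, 14, 13, 12, 23, 22, 21, 20, 19, 18, 33, 32, 31, 30, 29, 28, 27, 26, 25, 24, 35, 34]
def HT : Fin 36 → Z := ![⟨1, 0⟩, ⟨-1, 0⟩, ⟨1, 0⟩, ⟨-1, 0⟩, ⟨1, 0⟩, ⟨-1, 0⟩, ⟨1, 0⟩, ⟨-1, 0⟩, ⟨1, 0⟩, ⟨-1, 0⟩, ⟨1, 0⟩, ⟨-1, 0⟩, ⟨7, -4⟩, ⟨-7, 4⟩, ⟨7, -4⟩, ⟨-7, 4⟩, ⟨7, -4⟩, ⟨-7, 4⟩, ⟨7, -4⟩, ⟨-7, 4⟩, ⟨7, -4⟩, ⟨-7, 4⟩, ⟨7, -4⟩, ⟨-7, 4⟩, ⟨2, -1⟩, ⟨-2, 1⟩, ⟨2, -1⟩, ⟨-2, 1⟩, ⟨2, -1⟩, ⟨-2, 1⟩, ⟨2, -1⟩, ⟨-2, 1⟩, ⟨2, -1⟩, ⟨-2, 1⟩, ⟨2, -1⟩, ⟨-2, 1⟩]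
def U : Fin 36 → Fin 36 := ![0, 1, 2, 3, 4, 5, 6, 0, 1, 2, 3, 4, 12, 13, 14, 15, 16, 17, 18, 19, 20, 12, 13, 14, 0, 1, 2, 3, 4, 5, 6, 7, 8, 0, 1, 2]
def W : Fin 36 → Fin 36 := ![5, 6, 7, 8, 9, 10, 11, 7, 8, 9, 10, 11, 15, 16, 17, 18, 19, 20, 21, 22, 23, 21, 22, 23, 3, 4, 5, 6, 7, 8, 9, 10, 11, 9, 10, 11]
def dep : Fin 36 → ℕ := ![0, 2, 2, 1, 2, 1, 2, 1, 2, 1, 2, 2, 1, 1, 2, 2, 2, 2, 2, 1, 1, 2, 2, 2, 1, 1, 2, 2, 2, 2, 2, 2, 2, 1, 1, 2]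
def sg (i : Fin 36) : Fin 36 := ⟨12 * (i / 12) + (i + 1) % 12, by omega⟩
def ring (i : Fin 36) : Fin 3 := ⟨i / 12, by omega⟩
def J (i j : Fin 36) : Prop := Nat.testBit 1023313097352946632656809389033077016644805546869046382169740334702712925191927615859530253675804441548047709259540618808672310098150761071084380630746353922474861284145028067974625625631210958581355145540848871019654220109792817383437495068696999802385328458260909779918992733498431178490929579375404285554363094745892866151909082179025506288109774722834836850929824657146554236768591282305 (36 * i.val + j.val) = true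
instance (i j : Fin 36) : Decidable (J i j) := inferInstanceAs (Decidable (_ = true))

noncomputable def f : Z →+* ℝ := Zsqrtd.toReal (by norm_num)
theorem finj : Function.Injective f := Zsqrtd.toReal_injective _ (by
  intro n h
  have : n ≤ 1 ∨ 2 ≤ n := by omega
  have : n ≤ -2 ∨ -1 ≤ n := by omega
  rcases ‹n ≤ 1 ∨ 2 ≤ n› with a | a <;> rcases this with b | b <;>
    first | nlinarith | (interval_cases n <;> omega))
noncomputable def cx (u : Z × Z) : ℂ := ⟨f u.1, f u.2⟩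
noncomputable def P (i : Fin 36) : ℂ := cx (PT i)
noncomputable def LL (j : Fin 36) : Set ℂ := {z | f (NT j).1 * z.re + f (NT j).2 * z.im = f (CT j)}

theorem nc {α : Type} [Fintype α] (p : α → Prop) [DecidablePred p] :
    {i | p i}.ncard = (Finset.univ.filter p).card := by
  rw [← Set.ncard_coe_finset]; congr 1; ext; simp

theorem hom : om 12 = ⟨√3 / 2, 1 / 2⟩ := by
  have : (2 * Real.pi * Complex.I / (12 : ℕ) : ℂ) = (Real.pi / 6 : ℝ) * Complex.I := by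
    push_cast; ring
  rw [om, this, exp_mul_I, ← ofReal_cos, ← ofReal_sin, Real.cos_pi_div_six, Real.sin_pi_div_six]
  apply Complex.ext <;> simp

theorem hn : ‖om 12‖ = 1 := by
  have : (2 * Real.pi * Complex.I / (12 : ℕ) : ℂ) = (Real.pi / 6 : ℝ) * Complex.I := by
    push_cast; ring
  rw [om, this, norm_exp_ofReal_mul_I]

theorem rw1 (u v : Z × Z) (h : 2 * v.1 = Zsqrtd.sqrtd * u.1 - u.2 ∧
    2 * v.2 = u.1 + Zsqrtd.sqrtd * u.2) : om 12 * cx u = cx v := by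
  have a := congrArg f h.1
  have b := congrArg f h.2
  have s : f Zsqrtd.sqrtd = √3 := by simp [f]
  simp only [map_mul, map_sub, map_add, s, map_ofNat] at a b
  rw [hom]
  apply Complex.ext <;> simp only [cx, mul_re, mul_im] <;> linarith

theorem rP (i : Fin 36) : om 12 * P i = P (sg i) := rw1 _ _ (by revert i; decide +kernel)
theorem rN (i : Fin 36) : om 12 * cx (NT i) = cx (NT (sg i)) := rw1 _ _ (by revert i; decide +kernel)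
theorem cP (i : Fin 36) : (starRingEnd ℂ) (P i) = P (tp i) := by
  have : (PT (tp i)).1 = (PT i).1 ∧ (PT (tp i)).2 = -(PT i).2 := by revert i; decide +kernel
  apply Complex.ext <;> simp [P, cx, this]

theorem rL (i : Fin 36) : (fun z => om 12 * z) '' LL i = LL (sg i) := by
  have c : CT (sg i) = CT i := by revert i; decide +kernel
  have a := congrArg re (rN i)
  have b := congrArg im (rN i)
  have s : √3 * √3 = 3 := Real.mul_self_sqrt (by norm_num)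
  rw [hom] at a b
  simp only [cx, mul_re, mul_im] at a b
  ext z
  simp only [LL, Set.mem_image, Set.mem_setOf_eq, ← a, ← b, c, hom]
  constructor
  · rintro ⟨w, h, rfl⟩
    simp only [mul_re, mul_im]
    linear_combination h + (f (NT i).1 * w.re + f (NT i).2 * w.im) / 4 * s
  · intro h
    refine ⟨⟨√3 / 2 * z.re + z.im / 2, √3 / 2 * z.im - z.re / 2⟩, by linear_combination h, ?_⟩
    apply Complex.ext <;> simp only [mul_re, mul_im]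
    · linear_combination z.re / 4 * s
    · linear_combination z.im / 4 * s

theorem cL (i : Fin 36) : (starRingEnd ℂ) '' LL i = LL (tl i) := by
  have : (NT (tl i)).1 = (NT i).1 ∧ (NT (tl i)).2 = -(NT i).2 ∧ CT (tl i) = CT i := by
    revert i; decide +kernel
  ext z
  simp only [LL, Set.mem_image, Set.mem_setOf_eq, this, map_neg]
  constructor
  · rintro ⟨w, h, rfl⟩
    simpa using h
  · intro h
    exact ⟨(starRingEnd ℂ) z, by simpa using h, by simp⟩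

theorem rP' (j : ℕ) (i : Fin 36) : om 12 ^ j * P i = P (sg^[j] i) := by
  induction j with
  | zero => simp
  | succ j ih => rw [pow_succ', mul_assoc, ih, rP, Function.iterate_succ_apply']

theorem rL' (j : ℕ) (i : Fin 36) : (fun z => om 12 ^ j * z) '' LL i = LL (sg^[j] i) := by
  induction j with
  | zero => simp
  | succ j ih =>
    rw [Function.iterate_succ_apply', ← rL, ← ih, Set.image_image]
    simp only [pow_succ', mul_assoc]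

theorem mem (i j : Fin 36) : P i ∈ LL j ↔ J i j := by
  have : (NT j).1 * (PT i).1 + (NT j).2 * (PT i).2 = CT j ↔ J i j := by
    revert i j; decide +kernel
  rw [← this, ← finj.eq_iff, map_add, map_mul, map_mul]; rfl

theorem jinj (j k : Fin 36) (h : ∀ i, J i j ↔ J i k) : j = k := by revert j k; decide +kernel

theorem Pi : Function.Injective P := by
  intro i k h
  have : ∀ i k : Fin 36, (∀ j, J i j ↔ J k j) → i = k := by decide +kernel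
  exact this i k fun j => by rw [← mem, ← mem, h]

theorem Li : Function.Injective LL := fun j k h => jinj j k fun i => by rw [← mem, ← mem, h]

theorem mk (g : ℂ → ℂ) (hg : Isometry g) (a b : Fin 36 → Fin 36) (ha : Function.Surjective a)
    (hb : Function.Surjective b) (h1 : ∀ i, g (P i) = P (a i)) (h2 : ∀ i, g '' LL i = LL (b i)) :
    Sym P LL g := by
  refine ⟨hg, ?_, ?_⟩
  · rw [← Set.range_comp, show g ∘ P = P ∘ a from funext h1, ha.range_comp]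
  · rw [← Set.range_comp, show (fun l => g '' l) ∘ LL = LL ∘ b from funext h2, hb.range_comp]

theorem ss (j : ℕ) : Function.Surjective sg^[j] :=
  Function.Surjective.iterate (by decide +kernel) j

theorem iso (j : ℕ) : Isometry fun z => om 12 ^ j * z := by
  refine Isometry.of_dist_eq fun x y => ?_
  rw [dist_eq, dist_eq, ← mul_sub, norm_mul, norm_pow, hn, one_pow, one_mul]

theorem symR (j : ℕ) : Sym P LL fun z => om 12 ^ j * z := mk _ (iso j) _ _ (ss j) (ss j) (rP' j) (rL' j)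

theorem cL' (j : ℕ) (i : Fin 36) :
    (fun z => om 12 ^ j * (starRingEnd ℂ) z) '' LL i = LL (sg^[j] (tl i)) := by
  rw [← rL', ← cL, Set.image_image]

theorem symC (j : ℕ) : Sym P LL fun z => om 12 ^ j * (starRingEnd ℂ) z :=
  mk _ ((iso j).comp isometry_conj) (fun i => sg^[j] (tp i)) (fun i => sg^[j] (tl i))
    ((ss j).comp (by decide +kernel)) ((ss j).comp (by decide +kernel))
    (fun i => by rw [cP, rP']) (cL' j)

def d2 (i k : Fin 36) : Z := ((PT i).1 - (PT k).1) ^ 2 + ((PT i).2 - (PT k).2) ^ 2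

theorem hd (i k : Fin 36) : dist (P i) (P k) ^ 2 = f (d2 i k) := by
  rw [dist_eq, Complex.sq_norm, normSq_apply]
  simp [d2, P, cx, sq]

theorem three (g h : ℂ → ℂ) (hg : Isometry g) (hh : Isometry h) (hs : Function.Surjective h)
    (e : ∀ i ∈ [0, 3, 6], g (P i) = h (P i)) (z : ℂ) : g z = h z := by
  obtain ⟨w, hw⟩ := hs (g z)
  have k : ∀ i ∈ [0, 3, 6], dist w (P i) ^ 2 = dist z (P i) ^ 2 := fun i hi => by
    rw [← hh.dist_eq, hw, ← e i hi, hg.dist_eq]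
  have a := k 0 (by simp)
  have b := k 3 (by simp)
  have c := k 6 (by simp)
  have p0 : P 0 = ⟨2, 0⟩ := by apply Complex.ext <;> simp [P, cx, PT, f]
  have p2 : P 3 = ⟨0, 2⟩ := by apply Complex.ext <;> simp [P, cx, PT, f]
  have p4 : P 6 = ⟨-2, 0⟩ := by apply Complex.ext <;> simp [P, cx, PT, f]
  simp only [dist_eq, Complex.sq_norm, normSq_apply, p0, p2, p4, sub_re, sub_im] at a b c
  rw [← hw]; congr 1
  apply Complex.ext <;> linarith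

theorem o0 (j : ℕ) : om 12 ^ j ≠ 0 := pow_ne_zero _ (exp_ne_zero _)

theorem only (g : ℂ → ℂ) (h : Sym P LL g) : ∃ j : ℕ, (∀ z, g z = om 12 ^ j * z) ∨
    ∀ z, g z = om 12 ^ j * (starRingEnd ℂ) z := by
  have im : ∀ i, ∃ k, P k = g (P i) := fun i => by
    have : g (P i) ∈ Set.range P := h.2.1 ▸ ⟨_, ⟨i, rfl⟩, rfl⟩
    exact this
  choose a ha using im
  have dd : ∀ i k, d2 (a i) (a k) = d2 i k := fun i k =>
    finj (by rw [← hd, ← hd, ha, ha, h.1.dist_eq])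
  have key : ∀ x z : Fin 36, d2 x z = d2 0 6 → ∀ y, d2 x y = d2 0 3 → d2 y z = d2 3 6 →
      ∃ j < 12, x = sg^[j] 0 ∧ z = sg^[j] 6 ∧ (y = sg^[j] 3 ∨ y = sg^[j] 9) := by decide +kernel
  obtain ⟨j, -, x, z, y | y⟩ := key _ _ (dd 0 6) _ (dd 0 3) (dd 3 6)
  · refine ⟨j, Or.inl (three g _ h.1 (iso j) (mul_left_surjective₀ (o0 j)) ?_)⟩
    simp only [List.mem_cons, List.not_mem_nil, or_false, forall_eq_or_imp, forall_eq, rP', ← ha,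
      x, y, z, and_self]
  · refine ⟨j, Or.inr (three g _ h.1 (symC j).1
      ((mul_left_surjective₀ (o0 j)).comp (star_involutive.surjective)) ?_)⟩
    simp only [List.mem_cons, List.not_mem_nil, or_false, forall_eq_or_imp, forall_eq, cP, rP', ← ha,
      x, y, z]
    exact ⟨rfl, rfl, rfl⟩

theorem rs (j : ℕ) (i : Fin 36) : ring (sg^[j] i) = ring i := by
  induction j with
  | zero => rfl
  | succ j ih =>
    rw [Function.iterate_succ_apply', ← ih]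
    exact (by decide +kernel : ∀ i, ring (sg i) = ring i) _

theorem tr : ∀ i k, ring i = ring k → ∃ j < 12, sg^[j] i = k := by decide +kernel

abbrev E3 := EuclideanSpace ℝ (Fin 3)
noncomputable def Q (i : Fin 36) : E3 := !₂[f (PT i).1, f (PT i).2, f (HT i)]
noncomputable def MM (j : Fin 36) : Set E3 := {z | ∃ t : ℝ, z = Q (U j) + t • (Q (W j) - Q (U j))}

theorem par (d0 d1 d2 v0 v1 v2 : ℝ) (h : v0 ≠ 0 ∨ v1 ≠ 0) :
    (∃ t, d0 = t * v0 ∧ d1 = t * v1 ∧ d2 = t * v2) ↔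
      d0 * v1 = d1 * v0 ∧ d0 * v2 = d2 * v0 ∧ d1 * v2 = d2 * v1 := by
  constructor
  · rintro ⟨t, rfl, rfl, rfl⟩; refine ⟨?_, ?_, ?_⟩ <;> ring
  · rintro ⟨a, b, c⟩
    rcases h with h | h
    · refine ⟨d0 / v0, ?_, ?_, ?_⟩ <;> field_simp <;> linarith
    · refine ⟨d1 / v1, ?_, ?_, ?_⟩ <;> field_simp <;> linarith

theorem nz (j : Fin 36) : f (PT (W j)).1 - f (PT (U j)).1 ≠ 0 ∨ f (PT (W j)).2 - f (PT (U j)).2 ≠ 0 := by
  rw [sub_ne_zero, sub_ne_zero, finj.ne_iff, finj.ne_iff]; revert j; decide +kernel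

theorem mem3 (i j : Fin 36) : Q i ∈ MM j ↔ J i j := by
  have : (((PT i).1 - (PT (U j)).1) * ((PT (W j)).2 - (PT (U j)).2) =
      ((PT i).2 - (PT (U j)).2) * ((PT (W j)).1 - (PT (U j)).1) ∧
      ((PT i).1 - (PT (U j)).1) * (HT (W j) - HT (U j)) =
      (HT i - HT (U j)) * ((PT (W j)).1 - (PT (U j)).1) ∧
      ((PT i).2 - (PT (U j)).2) * (HT (W j) - HT (U j)) =
      (HT i - HT (U j)) * ((PT (W j)).2 - (PT (U j)).2)) ↔ J i j := by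
    revert i j; decide +kernel
  rw [← this, ← finj.eq_iff, ← finj.eq_iff, ← finj.eq_iff]
  simp only [map_mul, map_sub]
  rw [← par _ _ _ _ _ _ (nz j)]
  refine exists_congr fun t => ⟨fun h => ?_, fun ⟨a, b, c⟩ => ?_⟩
  · have a := congrArg (fun z : E3 => z 0) h
    have b := congrArg (fun z : E3 => z 1) h
    have c := congrArg (fun z : E3 => z 2) h
    simp [Q] at a b c
    exact ⟨by linarith, by linarith, by linarith⟩
  · ext k; fin_cases k <;> simp [Q] <;> linarith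

theorem dim3 : Module.finrank ℝ (vectorSpan ℝ (Set.range Q)) = 3 := by
  have : vectorSpan ℝ (Set.range Q) = ⊤ := by
    rw [eq_top_iff]; intro z _
    have v := fun i k => vsub_mem_vectorSpan ℝ (Set.mem_range_self (f := Q) i) (Set.mem_range_self k)
    have e : z = ((z 0 - z 2) / 4) • (Q 0 -ᵥ Q 6) + ((z 1 + z 2) / 4) • (Q 3 -ᵥ Q 9) +
        (z 2 / 2) • (Q 0 -ᵥ Q 3) := by
      ext k; fin_cases k <;> simp [Q, PT, HT, f] <;> ring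
    rw [e]
    exact add_mem (add_mem (Submodule.smul_mem _ _ (v _ _)) (Submodule.smul_mem _ _ (v _ _)))
      (Submodule.smul_mem _ _ (v _ _))
  rw [this]; simp

theorem conn : Conn J := by
  have h : ∀ i, i ≠ 0 → ∃ k, dep k < dep i ∧ ∃ j, J i j ∧ J k j := by decide +kernel
  have g : ∀ d i, dep i < d → Relation.ReflTransGen (fun x y => ∃ j, J x j ∧ J y j) i 0 := by
    intro d
    induction d with
    | zero => intro i h; omega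
    | succ d ih =>
      intro i hi
      by_cases e : i = 0
      · rw [e]
      · obtain ⟨k, a, b⟩ := h i e
        exact Relation.ReflTransGen.head b (ih k (by omega))
  have sy : ∀ x y, Relation.ReflTransGen (fun x y => ∃ j, J x j ∧ J y j) x y →
      Relation.ReflTransGen (fun x y => ∃ j, J x j ∧ J y j) y x := by
    intro x y h
    induction h with
    | refl => exact Relation.ReflTransGen.refl
    | tail _ h ih =>
      obtain ⟨j, a, b⟩ := h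
      exact Relation.ReflTransGen.head ⟨j, b, a⟩ ih
  exact fun i k => (g _ i (Nat.lt_succ_self _)).trans (sy _ _ (g _ k (Nat.lt_succ_self _)))

/-- A connected 3-astral geometric `(n_4)` configuration whose underlying combinatorial
configuration has a realization in `ℝ^3` with affine hull of dimension 3. -/
theorem result : ∃ (n : ℕ) (I : Fin n → Fin n → Prop) (p : Fin n → ℂ) (L : Fin n → Set ℂ),
    IsConfig I ∧ Conn I ∧ Realizes I p L ∧ KAstral 3 p L ∧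
    ∃ q M, RealizesIn 3 I q M ∧ Module.finrank ℝ (vectorSpan ℝ (Set.range q)) = 3 := by
  have rsu : Function.Surjective ring := by decide +kernel
  refine ⟨36, J, P, LL, ⟨?_, ?_, ?_⟩, conn, ⟨Pi, Li, fun j => ⟨_, _, _, ?_, rfl⟩,
    mem⟩, ⟨ring, ring, rsu, rsu, fun i k => ⟨fun h => ?_, ?_⟩, fun i k => ⟨fun h => ?_, ?_⟩⟩, Q, MM,
    ⟨fun i k h => ?_, fun j k h => jinj j k fun i => by rw [← mem3, ← mem3, h],
    fun j => ⟨_, _, fun h => ?_, rfl⟩, mem3⟩, dim3⟩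
  · simp only [nc]; decide +kernel
  · simp only [nc]; decide +kernel
  · have : ∀ i j, J i j → ∀ i', J i' j → i ≠ i' → ∀ j', J i j' → J i' j' → j = j' := by
      decide +kernel
    exact fun i i' j j' h a b c d => this i j a i' b h j' c d
  · rw [← map_zero f, finj.ne_iff, finj.ne_iff]; revert j; decide +kernel
  · obtain ⟨j, -, rfl⟩ := tr i k h
    exact ⟨_, symR j, rP' j i⟩
  · rintro ⟨g, hg, e⟩
    obtain ⟨j, h | h⟩ := only g hg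
    · rw [h, rP'] at e; rw [← Pi e, rs]
    · rw [h, cP, rP'] at e; rw [← Pi e, rs]
      exact (by decide +kernel : ∀ i, ring i = ring (tp i)) i
  · obtain ⟨j, -, rfl⟩ := tr i k h
    exact ⟨_, symR j, rL' j i⟩
  · rintro ⟨g, hg, e⟩
    obtain ⟨j, h | h⟩ := only g hg
    · rw [funext h, rL'] at e; rw [← Li e, rs]
    · rw [funext h, cL'] at e; rw [← Li e, rs]
      exact (by decide +kernel : ∀ i, ring i = ring (tl i)) i
  · have : ∀ i k : Fin 36, (∀ j, J i j ↔ J k j) → i = k := by decide +kernel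
    exact this i k fun j => by rw [← mem3, ← mem3, h]
  · have a := congrArg (fun z : E3 => z 0) h
    have b := congrArg (fun z : E3 => z 1) h
    simp [Q] at a b
    rcases nz j with c | c <;> contradiction

end Pool.Agent.Results.MP_3f639a_co.Lift
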